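import Pool.Agent.BLP.StmtsM

/-!
# Squad BLP, row M_OSM: exponential moments of the oscillations of the unit cells (helper97)
-/

namespace Pool.Agent.BLP.H97

open MeasureTheory ProbabilityTheory Filter Topology Finset Pool.Agent.BLP
open scoped ENNReal

noncomputable section

section det

variable {b : Env}

theorem bdd (hb : Cts b) (r : ℤ) (j : ℕ) :
    BddAbove ((fun u => |b r u - b r j|) '' Set.Icc (j : ℝ) (j + 1)) :=
  (isCompact_Icc.image (((hb r).sub continuous_const).abs)).bddAbove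

theorem ne (r : ℤ) (j : ℕ) :
    ((fun u => |b r u - b r j|) '' Set.Icc (j : ℝ) (j + 1)).Nonempty :=
  ⟨_, ⟨(j : ℝ), ⟨le_refl _, by linarith⟩, rfl⟩⟩

theorem lt_os (hb : Cts b) (r : ℤ) (j : ℕ) (y : ℝ) :
    y < Os b r j ↔ ∃ u, (j : ℝ) ≤ u ∧ u ≤ j + 1 ∧ y < |b r u - b r j| := by
  unfold Os
  rw [lt_csSup_iff (bdd hb r j) (ne r j)]
  constructor
  · rintro ⟨_, ⟨u, hu, rfl⟩, h⟩
    exact ⟨u, hu.1, hu.2, h⟩
  · rintro ⟨u, h1, h2, h⟩
    exact ⟨_, ⟨u, ⟨h1, h2⟩, rfl⟩, h⟩

theorem lt_os_rat (hb : Cts b) (r : ℤ) (j : ℕ) (y : ℝ) :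
    y < Os b r j ↔ ∃ q : ℚ, ((j : ℝ) ≤ q ∧ (q : ℝ) ≤ j + 1) ∧ y < |b r q - b r j| := by
  rw [lt_os hb]
  constructor
  · rintro ⟨u, h1, h2, h⟩
    have hc : Continuous fun v => |b r v - b r j| := ((hb r).sub continuous_const).abs
    have ho : IsOpen {v | y < |b r v - b r j|} := isOpen_lt continuous_const hc
    have hcl : u ∈ closure (Set.Ioo (j : ℝ) (j + 1)) := by
      rw [closure_Ioo (by linarith : (j : ℝ) ≠ j + 1)]
      exact ⟨h1, h2⟩
    obtain ⟨v, hv⟩ := mem_closure_iff.1 hcl _ ho h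
    obtain ⟨q, hq⟩ := Rat.isDenseEmbedding_coe_real.dense.exists_mem_open (ho.inter isOpen_Ioo)
      ⟨v, hv⟩
    exact ⟨q, ⟨hq.2.1.le, hq.2.2.le⟩, hq.1⟩
  · rintro ⟨q, ⟨h1, h2⟩, h⟩
    exact ⟨q, h1, h2, h⟩

theorem os_nonneg (hb : Cts b) (r : ℤ) (j : ℕ) : 0 ≤ Os b r j := by
  unfold Os
  refine le_csSup_of_le (bdd hb r j) ⟨(j : ℝ), ⟨le_refl _, by linarith⟩, rfl⟩ ?_
  exact abs_nonneg _

end det

/-- the bound of the terms -/
theorem term {κ : ℝ} (k : ℕ) : Real.exp (κ * (k + 2)) * (4 * Real.exp (-((k : ℝ) ^ 2) / 2)) ≤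
    4 * Real.exp (2 * κ + (κ + 1) ^ 2 / 2) * Real.exp (-(k : ℝ)) := by
  have e : Real.exp (κ * (k + 2)) * (4 * Real.exp (-((k : ℝ) ^ 2) / 2)) =
      4 * Real.exp (κ * (k + 2) + -((k : ℝ) ^ 2) / 2) := by
    rw [Real.exp_add]
    ring
  rw [e, mul_assoc, ← Real.exp_add]
  refine mul_le_mul_of_nonneg_left (Real.exp_le_exp.2 ?_) (by norm_num)
  nlinarith [sq_nonneg ((k : ℝ) - (κ + 1))]

/-- the pointwise bound -/
theorem point {κ o : ℝ} (hκ : 0 ≤ κ) (ho : 0 ≤ o) : ENNReal.ofReal (Real.exp (κ * o)) ≤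
    ENNReal.ofReal (Real.exp κ) + ∑' k : ℕ, (if (k : ℝ) < o then
      ENNReal.ofReal (Real.exp (κ * (k + 2))) else 0) := by
  rcases lt_or_ge o 1 with h | h
  · refine le_add_right (ENNReal.ofReal_le_ofReal (Real.exp_le_exp.2 ?_))
    nlinarith
  · refine le_add_left ?_
    obtain ⟨k, hk1, hk2⟩ : ∃ k : ℕ, (k : ℝ) < o ∧ o ≤ k + 2 := by
      have h1 := Nat.floor_le ho
      have h2 := Nat.lt_floor_add_one o
      have h3 : 1 ≤ ⌊o⌋₊ := Nat.le_floor (by exact_mod_cast h)
      refine ⟨⌊o⌋₊ - 1, ?_, ?_⟩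
      · rw [Nat.cast_sub h3]
        push_cast
        linarith
      · rw [Nat.cast_sub h3]
        push_cast
        linarith
    refine le_trans ?_ (ENNReal.le_tsum k)
    rw [if_pos hk1]
    exact ENNReal.ofReal_le_ofReal (Real.exp_le_exp.2 (by nlinarith))

/-- M_OSM -/
theorem osm (hL : LvyStmt) : OsmStmt := by
  intro X _ μ B hS κ hκ
  have hp := hS.prob
  set K : ℝ := 4 * Real.exp (2 * κ + (κ + 1) ^ 2 / 2) with hK
  have hK0 : 0 ≤ K := by positivity
  have hsum : Summable fun k : ℕ => K * Real.exp (-(k : ℝ)) :=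
    Real.summable_exp_neg_nat.mul_left K
  refine ⟨Real.exp κ + ∑' k : ℕ, K * Real.exp (-(k : ℝ)), fun r j => ?_⟩
  have hlt : ∀ y x, y < Os (B x) r j ↔
      ∃ q : ℚ, ((j : ℝ) ≤ q ∧ (q : ℝ) ≤ j + 1) ∧ y < |B x r q - B x r j| :=
    fun y x => lt_os_rat (hS.cts x) r j y
  have hm : Measurable fun x => Os (B x) r j := by
    apply measurable_of_Ioi
    intro y
    have e : (fun x => Os (B x) r j) ⁻¹' Set.Ioi y = ⋃ q : ℚ, {x |
        ((j : ℝ) ≤ q ∧ (q : ℝ) ≤ j + 1) ∧ y < |B x r q - B x r j|} := by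
      ext x
      rw [Set.mem_preimage, Set.mem_Ioi, hlt, Set.mem_iUnion]
      rfl
    rw [e]
    refine MeasurableSet.iUnion fun q => ?_
    have h1 : Measurable fun x => |B x r q - B x r j| :=
      continuous_abs.measurable.comp ((hS.mea r q).sub (hS.mea r j))
    by_cases hq : (j : ℝ) ≤ q ∧ (q : ℝ) ≤ j + 1
    · have e2 : {x | ((j : ℝ) ≤ q ∧ (q : ℝ) ≤ j + 1) ∧ y < |B x r q - B x r j|} =
          {x | y < |B x r q - B x r j|} := by
        ext x
        exact ⟨fun h => h.2, fun h => ⟨hq, h⟩⟩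
      rw [e2]
      exact measurableSet_lt measurable_const h1
    · have e2 : {x | ((j : ℝ) ≤ q ∧ (q : ℝ) ≤ j + 1) ∧ y < |B x r q - B x r j|} = ∅ := by
        ext x
        exact ⟨fun h => hq h.1, fun h => h.elim⟩
      rw [e2]
      exact MeasurableSet.empty
  have htail : ∀ k : ℕ, μ {x | (k : ℝ) < Os (B x) r j} ≤
      ENNReal.ofReal (4 * Real.exp (-((k : ℝ) ^ 2) / 2)) := by
    intro k
    have h1 := hL X μ B hS r j (j + 1) k (by linarith) (Nat.cast_nonneg k)
    have e1 : (2 : ℝ) * ((j : ℝ) + 1 - j) = 2 := by ring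
    rw [e1] at h1
    refine le_trans (measure_mono fun x hx => ?_) h1
    exact (lt_os (hS.cts x) r j k).1 hx
  have hC : ∫⁻ x, ENNReal.ofReal (Real.exp (κ * Os (B x) r j)) ∂μ ≤
      ENNReal.ofReal (Real.exp κ + ∑' k : ℕ, K * Real.exp (-(k : ℝ))) := by
    calc ∫⁻ x, ENNReal.ofReal (Real.exp (κ * Os (B x) r j)) ∂μ
        ≤ ∫⁻ x, (ENNReal.ofReal (Real.exp κ) + ∑' k : ℕ, (if (k : ℝ) < Os (B x) r j then
          ENNReal.ofReal (Real.exp (κ * (k + 2))) else 0)) ∂μ :=
          lintegral_mono fun x => point hκ (os_nonneg (hS.cts x) r j)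
      _ = ENNReal.ofReal (Real.exp κ) + ∑' k : ℕ, ENNReal.ofReal (Real.exp (κ * (k + 2))) *
          μ {x | (k : ℝ) < Os (B x) r j} := by
          rw [lintegral_add_left measurable_const, lintegral_const, measure_univ, mul_one,
            lintegral_tsum]
          · congr 1
            refine tsum_congr fun k => ?_
            have e : (fun x => (if (k : ℝ) < Os (B x) r j then
                ENNReal.ofReal (Real.exp (κ * (k + 2))) else 0)) =
                Set.indicator {x | (k : ℝ) < Os (B x) r j}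
                  (fun _ => ENNReal.ofReal (Real.exp (κ * (k + 2)))) := by
              funext x
              rw [Set.indicator_apply]
              rfl
            rw [e, lintegral_indicator_const (measurableSet_lt measurable_const hm)]
          · intro k
            exact (Measurable.ite (measurableSet_lt measurable_const hm) measurable_const
              measurable_const).aemeasurable
      _ ≤ ENNReal.ofReal (Real.exp κ) + ∑' k : ℕ, ENNReal.ofReal (K * Real.exp (-(k : ℝ))) := by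
          refine add_le_add le_rfl (ENNReal.tsum_le_tsum fun k => ?_)
          refine (mul_le_mul_right (htail k) _).trans ?_
          rw [← ENNReal.ofReal_mul (Real.exp_pos _).le]
          exact ENNReal.ofReal_le_ofReal (term k)
      _ = ENNReal.ofReal (Real.exp κ + ∑' k : ℕ, K * Real.exp (-(k : ℝ))) := by
          rw [ENNReal.ofReal_add (Real.exp_pos _).le (tsum_nonneg fun k => by positivity),
            ENNReal.ofReal_tsum_of_nonneg (fun k => by positivity) hsum]
  have hmexp : Measurable fun x => Real.exp (κ * Os (B x) r j) :=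
    Real.measurable_exp.comp (hm.const_mul κ)
  refine ⟨hm, ⟨hmexp.aestronglyMeasurable, ?_⟩, ?_⟩
  · rw [hasFiniteIntegral_iff_ofReal (Eventually.of_forall fun x => (Real.exp_pos _).le)]
    exact hC.trans_lt ENNReal.ofReal_lt_top
  · rw [integral_eq_lintegral_of_nonneg_ae (Eventually.of_forall fun x => (Real.exp_pos _).le)
      hmexp.aestronglyMeasurable]
    refine ENNReal.toReal_le_of_le_ofReal ?_ hC
    have : 0 ≤ ∑' k : ℕ, K * Real.exp (-(k : ℝ)) := tsum_nonneg fun k => by positivity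
    positivity

end

end Pool.Agent.BLP.H97
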