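import Pool.Agent.BLP.StmtsE

/-!
# Squad BLP, row E_EEX: integrability and expectation at rational times (helper97)
-/

namespace Pool.Agent.BLP.H97

open MeasureTheory ProbabilityTheory Filter Topology Finset Pool.Agent.BLP

/-- E_EEX -/
theorem eex (hI : IntStmt) (hE : EaqStmt) : EexStmt := by
  intro X _ μ B hS k n s t hkn hst
  have hp := hS.prob
  exact ⟨(hI X μ B hS k s n t).integrable (by norm_num), hE X μ B hS k n s t hkn hst⟩

end Pool.Agent.BLP.H97
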